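import Pool.Agent.H58.Carnot

namespace Pool.Agent.Results.MP_b4a25c_gt.Disproof
open Pool.Agent.H58.Carnot
open scoped Pointwise

theorem result : (∀ (n : ℕ) (B : Type) [Group B], IsEmpty (N ≃* Heis n × B)) ∧
    ∃ (F : N → N) (g : N), Function.Bijective F ∧
      (∀ a b, cc (F a) (F b) ≤ 5 * cc a b ∧ cc a b ≤ 5 * cc (F a) (F b)) ∧
      ∀ h : N, F '' (g • (commutator N : Set N)) ≠ h • (commutator N : Set N) := by
  have i2 : ∀ g, F 1 (F (-1) g) = g := fun g => by simpa using F_inv (-1) g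
  refine ⟨nofactor, F 1, ⟨![1, 0, 0, 0, 0, 0]⟩,
    Function.bijective_iff_has_inverse.2 ⟨F (-1), F_inv 1, i2⟩,
    fun a b => ⟨cc_le (by simp) a b, ?_⟩, fun h hh => ?_⟩
  · simpa only [F_inv] using cc_le (σ := -1) (by simp) (F 1 a) (F 1 b)
  · have k : ∀ t, r 1 * Real.cos t = h.c 3 := fun t => by
      have : F 1 (⟨![1, 0, 0, 0, 0, 0]⟩ * cen t 0) ∈ h • (commutator N : Set N) :=
        hh ▸ ⟨_, ⟨cen t 0, mem_comm.2 ⟨_, _, rfl⟩, rfl⟩, rfl⟩
      obtain ⟨a, ha, e⟩ := this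
      obtain ⟨s, w, rfl⟩ := mem_comm.1 ha
      simpa [F, f, mul_c, cen] using (congrFun (congrArg N.c e) 3).symm
    have a := k 0
    have b := k Real.pi
    have := r_eq 1
    simp at a b
    linarith

end Pool.Agent.Results.MP_b4a25c_gt.Disproof
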